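import Pool.Agent.W973.CES.Defs

/-! Subtask CES-VAL: the instance is valid. -/

set_option autoImplicit false

namespace Pool.Agent.W883.CES

open Pool.Agent.W973.CES Pool.Agent.NPC

theorem getD_map_range (n : ℕ) (f : ℕ → List ℕ) (x : ℕ) (hx : x < n) :
    ((List.range n).map f).getD x [] = f x := by
  rw [List.getD_eq_getElem _ _ (by simpa using hx)]
  simp

theorem val (h1 : S_ORD) (h2 : S_TOP) : S_VAL := by
  intro φ
  obtain ⟨-, -, h3⟩ := h2 φ
  have hl : (red φ).1.length = NN φ := by simp [red]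
  have hl2 : (red φ).2.length = NN φ := by simp [red]
  refine ⟨⟨by rw [hl, hl2], ?_, ?_⟩, hl, ?_⟩
  · intro l hm
    rw [hl]
    obtain ⟨x, hx, rfl⟩ := List.mem_map.1 hm
    obtain ⟨a, b, -, -⟩ := h3 x (List.mem_range.1 hx)
    exact (h1 (NN φ) _ a b).1
  · intro l hm
    rw [hl]
    obtain ⟨x, hx, rfl⟩ := List.mem_map.1 hm
    obtain ⟨-, -, a, b⟩ := h3 x (List.mem_range.1 hx)
    exact (h1 (NN φ) _ a b).1
  · intro x hx y hy z hz
    obtain ⟨a, b, c, d⟩ := h3 x hx
    have e1 : prefs (red φ) (true, x) = full (NN φ) (topM φ x) := by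
      change ((List.range (NN φ)).map fun x => full (NN φ) (topM φ x)).getD x [] = _
      exact getD_map_range _ _ x hx
    have e2 : prefs (red φ) (false, x) = full (NN φ) (topW φ x) := by
      change ((List.range (NN φ)).map fun x => full (NN φ) (topW φ x)).getD x [] = _
      exact getD_map_range _ _ x hx
    rw [e1, e2]
    exact ⟨(h1 _ _ a b).2 y hy z hz, (h1 _ _ c d).2 y hy z hz⟩

end Pool.Agent.W883.CES
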